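import Pool.Agent.X240.SH.Sum

/-!
# The 3SUM hypothesis: nondeterministic machines with slow heads which verify negative answers

3SUM has short proofs of negative answers: Carmosino, Gao, Impagliazzo, Mihajlin, Paturi and Schneider
gave a nondeterministic algorithm of time `N ^ (3 / 2 + o(1))` which accepts exactly the sets without
a solution.  Here is a lower bound for such nondeterministic algorithms in a restricted model.  A set
of `N` integers between `- N ^ 3` and `N ^ 3` is given as a word of `n = N (w + 1)` bits.  Nonuniform
nondeterministic programs with `k` two-way heads, which move by at most one position in a step, with at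
most `2 ^ S` configurations, which accept the sets in which no number is the sum of two others within
`T` steps and never accept another set, satisfy
`(k T + n) ^ 2 * k * (S + 1) * (w + 1) ≥ n ^ 3 / 51000`.  So with space `N ^ o(1)` and a bounded
number of heads they need time `N ^ (3 / 2 - o(1))`, and with space `N ^ (1 - 2 c - o(1))` time
`N ^ (1 + c)`.

Proof. See `SlowHeads`; the theorem on blocks is used in its nondeterministic form (`blocksN3`).
-/

set_option autoImplicit false

namespace Pool.Agent.Results.MP_13bec0_lc.NondeterministicSlowHeads

open Pool.Agent.TH457.HT Pool.Agent.X240.SH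

/-- Let `P` be a nondeterministic program with `k ≥ 1` two-way heads for words of `N (w + 1)` bits
and with at most `2 ^ S` configurations.  If each list of `N` distinct integers of absolute value
at most `N ^ 3` in which no number is the sum of two others is accepted by some computation of at
most `T` steps, and if no list in which some number is the sum of two others is accepted by any
computation, then `n ^ 3 ≤ 51000 * k * (S + 1) * (w + 1) * (k * T + n) ^ 2` for `n = N (w + 1)`. -/
theorem result (N w k T S : ℕ) (P : HeadProg Bool (N * (w + 1)) k) (hk : 1 ≤ k)
    (hS : Fintype.card P.Q * (N * (w + 1)) ^ k ≤ 2 ^ S)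
    (hacc : ∀ x : Fin N → ℤ, Function.Injective x → (∀ i, |x i| ≤ (N : ℤ) ^ 3) → ¬ HasSum3 x →
      P.AcceptsIn T (zword N w x))
    (hsound : ∀ x : Fin N → ℤ, Function.Injective x → (∀ i, |x i| ≤ (N : ℤ) ^ 3) → HasSum3 x →
      ¬ P.Accepts (zword N w x)) :
    (N * (w + 1)) ^ 3 ≤ 51000 * (k * (S + 1) * (w + 1) * (k * T + N * (w + 1)) ^ 2) :=
  sum_nondet N w P T S hk hS hacc hsound

end Pool.Agent.Results.MP_13bec0_lc.NondeterministicSlowHeads
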