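import Mathlib
import Pool.Agent.X240.TS.Net

/-!
# The 3SUM hypothesis: nondeterministic networks which test real formulas

The input consists of `2 n` distinct integers of absolute value at most `(2 n) ^ 3`; the question is
whether one of them is the sum of two others (`threeSum`). The items of the input are the first `n`
numbers and the list of the other `n` numbers.

A real formula (`Fml`) is built from real constants, arbitrary real functions of one item, and
arbitrary real functions of `w` words of length `c log₂ (2 n)`, where each word is an arbitrary
function of one item, by sums, products, sign tests `pos`, and gates `sym` of any fan-in whose value is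
an arbitrary real function of the number of positive inputs. A network (`Net`) is a nondeterministic
branching program, possibly with cycles: nodes, free edges, and edges which are guarded by real
formulas; it accepts if some path leads from the start node to the end node over edges which are open.
Nodes and free edges are not counted.

We show that random networks (Arthur-Merlin type: first the random choice, then the guesses) of size
at most `s` which accept the yes instances, or which accept the no instances, with error probability
at most `1 / 3`, need `n ^ 2 ≤ 4000 w (√n + 400 c w) s`, that is, size of order `n ^ (3 / 2)`. The
exponent `3 / 2` is that of the nondeterministic algorithm of Carmosino, Gao, Impagliazzo, Mihajlin,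
Paturi and Schneider for the no instances.

Proof. By the coding of helper697 each of the first `n` numbers can ask for about `n log₂ n / 7` bits of
the list. If a network has `r` leaves which see the number, then the reachability between the end
points of the `r` edges gives `2 ^ O (r ^ 2)` possibilities, and the formulas on these edges take
`2 ^ O (r log n)` different functions of the number (Warren's bound, `Pool.Agent.Y638.RF.Core`).
-/

set_option autoImplicit false

namespace Pool.Agent.Results.MP_13bec0_lc.RealNetworks

open Pool.Agent.TH697.Form (IsProb)
open Pool.Agent.TH697.Row (ApproximatesOn)
open Pool.Agent.TH697.Form.ThreeSum (Item Valid threeSum)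
open Pool.Agent.Y638.RF (Net)

theorem result : ∀ n c w : ℕ, 1000 ≤ n → 1 ≤ c → 1 ≤ w →
    ∀ (Ω : Type) [Fintype Ω] (μ : Ω → ℝ), IsProb μ →
      ∀ (s : ℕ) (N : Ω → Net (Option (Fin n)) (Item n n) w ((2 * n) ^ c)),
        (∀ ω, (N ω).size ≤ s) →
        (ApproximatesOn μ (fun ω => (N ω).eval) (Valid n n) (threeSum n n) ∨
          ApproximatesOn μ (fun ω x => !(N ω).eval x) (Valid n n) (threeSum n n)) →
        (n : ℝ) ^ 2 ≤ 4000 * w * (√n + 400 * c * w) * s :=
  fun _ _ _ hn hc hw _ _ μ hμ s N hs hN =>
    Pool.Agent.X240.TS.net_bound hn hc hw μ hμ s N hs hN

end Pool.Agent.Results.MP_13bec0_lc.RealNetworks
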