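import Mathlib
import Pool.Agent.X240.TS.Real

/-!
# The 3SUM hypothesis: branching programs which test real formulas

The input consists of `2 n` distinct integers of absolute value at most `(2 n) ^ 3`; the question is
whether one of them is the sum of two others (`threeSum`). We also treat the variant in which we ask
for three of them whose sum is zero (`zeroSum`). The items of the input are each of the first `n`
numbers, and the list of the other `n` numbers.

A real formula (`Fml`) computes with exact real numbers: it is built from real constants, arbitrary
real functions of one item (so the list of the last `n` numbers is read at once), and arbitrary real
functions of `w` words of length `c log₂ (2 n)`, where each word is an arbitrary function of one item,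
by sums, products, sign tests `pos` (with the values `0`, `1`), and gates `sym` of any fan-in whose
value is an arbitrary real function of the number of positive inputs; these gates can be nested in any
way. It accepts if its value is positive. Its size is the number of leaves (constants are free) plus
the number of wires which lead to gates `sym`. In a branching program (`Program`) every inner node
tests whether a real formula accepts; its size is the number of inner nodes plus the sizes of all
these formulas.

We show that random branching programs of size at most `s` which decide one of the two questions with
error probability at most `1 / 3` need `n ^ 2 ≤ 14000 c w ^ 2 s`, that is, quadratic size if `w` and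
`c` are bounded.

Proof. By the coding of helper697 each of the first `n` numbers can ask for about `n log₂ n / 7` bits
of the list. We count the functions of one of the first `n` numbers which arise when the other items
are fixed (Nechiporuk's method): between the leaves which see the number the other parts of the
formula enter as affine functions, or as affine functions of a threshold test, and the number of
sign patterns is bounded by Warren's theorem (`Pool.Agent.Y638.RF.Core`).
-/

set_option autoImplicit false

namespace Pool.Agent.Results.MP_13bec0_lc.RealPrograms

open Pool.Agent.TH697.Form (IsProb)
open Pool.Agent.TH697.Row (ApproximatesOn)
open Pool.Agent.TH697.Form.ThreeSum (Item Valid threeSum)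
open Pool.Agent.TH457.Ary.ZeroSum (zeroSum)
open Pool.Agent.Y638.RF (Program)

theorem result : ∀ n c w : ℕ, 1000 ≤ n → 1 ≤ c → 1 ≤ w →
    ∀ (Ω : Type) [Fintype Ω] (μ : Ω → ℝ), IsProb μ →
      ∀ (s : ℕ) (B : Ω → Program (Option (Fin n)) (Item n n) w ((2 * n) ^ c) s),
        ApproximatesOn μ (fun ω => (B ω).eval) (Valid n n) (threeSum n n) ∨
          ApproximatesOn μ (fun ω => (B ω).eval) (Valid n n) (zeroSum n) →
        (n : ℝ) ^ 2 ≤ 14000 * c * w ^ 2 * s := by
  intro n c w hn hc hw Ω _ μ hμ s B hB
  rcases hB with hB | hB
  · exact Pool.Agent.X240.TS.program_bound hn hc hw μ hμ s B hB
  · exact Pool.Agent.Y638.RF.ZeroSum.program_bound hn hc hw μ hμ s B hB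

end Pool.Agent.Results.MP_13bec0_lc.RealPrograms
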