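import Pool.Agent.X240.SH.Sum

/-!
# The 3SUM hypothesis: randomized machines with slow heads

A set of `N` integers between `- N ^ 3` and `N ^ 3` is given as a word of `n = N (w + 1)` bits (the
numbers in any order, each of them by its sign and `w` binary digits).  Randomized nonuniform programs
with `k` two-way heads, which move by at most one position in a step, with at most `2 ^ S`
configurations, which find out within `T` steps, with error probability at most `1 / 20000`, whether
one of the numbers is the sum of two others, satisfy
`(k T + n) ^ 2 * k * (S + 1) * (w + 1) ≥ n ^ 3 / (2.1 * 10 ^ 6)`.  So randomized Turing machines with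
several heads on the input tape need time `N ^ (3 / 2 - o(1))` for 3SUM if they use space
`N ^ o(1)`, and time `N ^ (1 + c)` if they use space `N ^ (1 - 2 c - o(1))`.  (An algorithm which is
always correct, with expected time `t`, gives such a program with `T = 20000 t`.)

Proof. The general theorem on blocks (`Pool.Agent.TH457.HT.Gen3`) says that such programs cannot
decide whether the numbers `v_j`, given by the blocks of a word, are distinct.  Let `h = ⌊N / 6⌋`,
`Y = 4 h ^ 3`, `v_j < 2 h ^ 2` and `y_j = 2 h v_j + j < Y`.  Block `j` consists of `5 Y + y_j`,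
`18 Y - y_j`, `23 Y + (j + 1)` and three numbers from the interval `[31 Y, 32 Y)`, which also contains
the remaining numbers; all numbers are smaller than `32 Y ≤ N ^ 3`.  If `a + b = c` then `a`, `b`, `c` are
of the three first kinds and `y_i - y_j = t`, which is possible for some `t` iff `v_i = v_j` for some
`i ≠ j`.
-/

set_option autoImplicit false

namespace Pool.Agent.Results.MP_13bec0_lc.SlowHeads

open Pool.Agent.TH457.HT Pool.Agent.X240.SH

open Classical in
/-- Let `p`, `P` be a random program with `k ≥ 1` two-way heads for words of `N (w + 1)` bits and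
with at most `2 ^ S` configurations.  If for each list of `N` distinct integers of absolute value at
most `N ^ 3` the right answer to the question whether one of them is the sum of two others is given
within `T` steps with probability at least `1 - 1 / 20000`, then
`n ^ 3 ≤ 2100000 * k * (S + 1) * (w + 1) * (k * T + n) ^ 2` for `n = N (w + 1)`. -/
theorem result (N w k T S : ℕ) (Ω : Type) [Fintype Ω] (p : Ω → ℝ)
    (P : Ω → DetProg Bool (N * (w + 1)) k)
    (hp : ∀ ω, 0 ≤ p ω) (hp1 : ∑ ω, p ω = 1) (hk : 1 ≤ k)
    (hS : ∀ ω, Fintype.card (P ω).Q * (N * (w + 1)) ^ k ≤ 2 ^ S)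
    (h : ∀ x : Fin N → ℤ, Function.Injective x → (∀ i, |x i| ≤ (N : ℤ) ^ 3) →
      1 - 1 / 20000 ≤ prob p P T (zword N w x) (decide (HasSum3 x))) :
    (N * (w + 1)) ^ 3 ≤ 2100000 * (k * (S + 1) * (w + 1) * (k * T + N * (w + 1)) ^ 2) :=
  sum_rand N w p hp hp1 P T S hk hS h

end Pool.Agent.Results.MP_13bec0_lc.SlowHeads
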